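import Pool.Agent.Run7.h635.GEN.Stm
import Pool.Agent.Run7.h594.OD.Near
import Pool.Agent.Run7.h600.OD.Theta
import Pool.Agent.Run7.h709.OD.Ind

/-!
# Series which are algebraic over `ℚ(u)`: closure properties, minimal relations
-/

set_option autoImplicit false

namespace H594.GEN

open Polynomial H809.OD H594.OD H635.GEN

/-- `ℚ[u]` -/
noncomputable def SU : Subalgebra ℚ (PowerSeries ℚ) :=
  (Polynomial.aeval u : Polynomial ℚ →ₐ[ℚ] PowerSeries ℚ).range

/-- `ℚ[X] → ℚ[u]` -/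
noncomputable def rho : Polynomial ℚ →+* SU :=
  (Polynomial.aeval u : Polynomial ℚ →ₐ[ℚ] PowerSeries ℚ).rangeRestrict.toRingHom

lemma rho_coe (P : Polynomial ℚ) : ((rho P : SU) : PowerSeries ℚ) = aeval u P := rfl

lemma rho_surj : Function.Surjective rho := by
  rintro ⟨x, P, hP⟩
  exact ⟨P, Subtype.ext hP⟩

lemma aeval_u_ne {P : Polynomial ℚ} (hP : P ≠ 0) : (aeval u P : PowerSeries ℚ) ≠ 0 :=
  Run7.h709.OD.ph_ne theta_holds P hP

lemma rho_inj : Function.Injective rho := by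
  intro P Q h
  exact Run7.h709.OD.ph_inj theta_holds P Q (congrArg Subtype.val h)

lemma ev2_C (G : PowerSeries ℚ) (P : Polynomial ℚ) : H635.GEN.ev2 G (C P) = aeval u P := by
  simp [H635.GEN.ev2]

lemma ev2_X (G : PowerSeries ℚ) : H635.GEN.ev2 G X = G := by
  simp [H635.GEN.ev2]

lemma ev2_monomial (G : PowerSeries ℚ) (n : ℕ) (a : Polynomial ℚ) :
    H635.GEN.ev2 G (monomial n a) = aeval u a * G ^ n := by
  rw [← C_mul_X_pow_eq_monomial, map_mul, map_pow, ev2_C, ev2_X]

lemma ev2_eq (G : PowerSeries ℚ) (Φ : Polynomial (Polynomial ℚ)) :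
    H635.GEN.ev2 G Φ = Polynomial.aeval G (Φ.map rho) := by
  induction Φ using Polynomial.induction_on' with
  | add p q hp hq => rw [map_add, hp, hq, Polynomial.map_add, map_add]
  | monomial n a =>
    rw [ev2_monomial, map_monomial, aeval_monomial]
    rfl

lemma algU_iff (G : PowerSeries ℚ) : AlgU G ↔ IsAlgebraic SU G := by
  constructor
  · rintro ⟨Φ, h0, h1⟩
    refine ⟨Φ.map rho, ?_, ?_⟩
    · exact (Polynomial.map_ne_zero_iff rho_inj).mpr h0
    · rw [← ev2_eq, h1]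
  · rintro ⟨p, h0, h1⟩
    obtain ⟨Φ, rfl⟩ := Polynomial.map_surjective rho rho_surj p
    refine ⟨Φ, ?_, ?_⟩
    · rintro rfl
      exact h0 (by simp)
    · rw [ev2_eq, h1]

lemma AlgU.add {x y : PowerSeries ℚ} (hx : AlgU x) (hy : AlgU y) : AlgU (x + y) :=
  (algU_iff _).mpr (((algU_iff _).mp hx).add ((algU_iff _).mp hy))

lemma AlgU.mul {x y : PowerSeries ℚ} (hx : AlgU x) (hy : AlgU y) : AlgU (x * y) :=
  (algU_iff _).mpr (((algU_iff _).mp hx).mul ((algU_iff _).mp hy))

lemma AlgU.pow {x : PowerSeries ℚ} (hx : AlgU x) (n : ℕ) : AlgU (x ^ n) :=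
  (algU_iff _).mpr (((algU_iff _).mp hx).pow n)

lemma AlgU.neg {x : PowerSeries ℚ} (hx : AlgU x) : AlgU (-x) :=
  (algU_iff _).mpr (((algU_iff _).mp hx).neg)

lemma AlgU.sub {x y : PowerSeries ℚ} (hx : AlgU x) (hy : AlgU y) : AlgU (x - y) :=
  (algU_iff _).mpr (((algU_iff _).mp hx).sub ((algU_iff _).mp hy))

lemma algU_poly (P : Polynomial ℚ) : AlgU (aeval u P) := by
  rw [algU_iff]
  exact isAlgebraic_algebraMap (rho P)

lemma algU_u : AlgU u := by
  have := algU_poly X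
  rwa [aeval_X] at this

/-- all polynomials in `u`, `G` are algebraic -/
lemma algU_ev2 {G : PowerSeries ℚ} (hG : AlgU G) (P : Polynomial (Polynomial ℚ)) :
    AlgU (H635.GEN.ev2 G P) := by
  induction P using Polynomial.induction_on' with
  | add p q hp hq => rw [map_add]; exact AlgU.add hp hq
  | monomial n a =>
    rw [ev2_monomial]
    exact AlgU.mul (algU_poly a) (AlgU.pow hG n)

/-- inverses: a nonzero polynomial `ε` in `u`, `G` has a multiple in `ℚ[u]` -/
lemma exists_inv {G : PowerSeries ℚ} (hG : AlgU G) (E : Polynomial (Polynomial ℚ))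
    (hE : H635.GEN.ev2 G E ≠ 0) : ∃ (A : Polynomial (Polynomial ℚ)) (r : Polynomial ℚ), r ≠ 0 ∧
    H635.GEN.ev2 G E * H635.GEN.ev2 G A = aeval u r := by
  obtain ⟨t, ht, r, hr, e⟩ := ((algU_iff _).mp (algU_ev2 hG E)).exists_nonzero_eq_adjoin_mul
    (mem_nonZeroDivisors_of_ne_zero hE)
  obtain ⟨r0, rfl⟩ := rho_surj r
  have h1 : Algebra.adjoin SU {H635.GEN.ev2 G E} ≤
      (Polynomial.aeval G : Polynomial SU →ₐ[SU] PowerSeries ℚ).range := by
    refine Algebra.adjoin_le ?_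
    rintro x rfl
    exact ⟨E.map rho, (ev2_eq G E).symm⟩
  obtain ⟨p, hp⟩ := h1 ht
  obtain ⟨A, rfl⟩ := Polynomial.map_surjective rho rho_surj p
  refine ⟨A, r0, ?_, ?_⟩
  · rintro rfl
    exact hr (by simp)
  · have hp' : H635.GEN.ev2 G A = t := by rw [ev2_eq]; exact hp
    rw [hp', e]
    rfl

/-- a relation of least degree -/
lemma exists_min {G : PowerSeries ℚ} (hG : AlgU G) : ∃ Φ : Polynomial (Polynomial ℚ), Φ ≠ 0 ∧
    H635.GEN.ev2 G Φ = 0 ∧ 1 ≤ Φ.natDegree ∧
    ∀ Ψ : Polynomial (Polynomial ℚ), Ψ.natDegree < Φ.natDegree → H635.GEN.ev2 G Ψ = 0 → Ψ = 0 := by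
  classical
  have hex : ∃ d : ℕ, ∃ Φ : Polynomial (Polynomial ℚ), Φ ≠ 0 ∧ H635.GEN.ev2 G Φ = 0 ∧
      Φ.natDegree = d := by
    obtain ⟨Φ, h0, h1⟩ := hG
    exact ⟨_, Φ, h0, h1, rfl⟩
  obtain ⟨Φ, h0, h1, h2⟩ := Nat.find_spec hex
  refine ⟨Φ, h0, h1, ?_, ?_⟩
  · by_contra hlt
    have hd : Φ.natDegree = 0 := by omega
    obtain ⟨P, rfl⟩ := Polynomial.natDegree_eq_zero.mp hd
    rw [ev2_C] at h1
    have hP : P ≠ 0 := by
      rintro rfl
      exact h0 (by simp)
    exact aeval_u_ne hP h1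
  · intro Ψ hlt hΨ
    by_contra hne
    rw [h2] at hlt
    exact Nat.find_min hex hlt ⟨Ψ, hne, hΨ, rfl⟩

/-- the derivation on polynomials in `u`, `G` -/
lemma DD_ev2' (G : PowerSeries ℚ) (P : Polynomial (Polynomial ℚ)) :
    ∃ P' : Polynomial (Polynomial ℚ), (∀ i, P'.coeff i = pp * derivative (P.coeff i)) ∧
    DD (H635.GEN.ev2 G P) = H635.GEN.ev2 G P' + H635.GEN.ev2 G (derivative P) * DD G := by
  induction P using Polynomial.induction_on' with
  | add p q hp hq =>
    obtain ⟨p', hpc, hp'⟩ := hp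
    obtain ⟨q', hqc, hq'⟩ := hq
    refine ⟨p' + q', fun i => ?_, ?_⟩
    · rw [coeff_add, coeff_add, hpc, hqc, derivative_add, mul_add]
    · rw [map_add, DD_add, hp', hq', map_add, derivative_add, map_add]
      ring
  | monomial n a =>
    refine ⟨monomial n (pp * derivative a), fun i => ?_, ?_⟩
    · rw [coeff_monomial, coeff_monomial]
      split_ifs <;> simp
    · have hpow : ∀ m : ℕ, DD (G ^ m) = m * G ^ (m - 1) * DD G := by
        intro m
        rcases m with _ | m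
        · rw [pow_zero, DD_one]; simp
        · rw [DD, Derivation.leibniz_pow, DD]
          simp only [smul_eq_mul, nsmul_eq_mul]
          ring
      rw [ev2_monomial, DD_mul, hpow, derivative_monomial, ev2_monomial, ev2_monomial]
      have h1 : DD (aeval u a) = aeval u (pp * derivative a) := by
        have := DD_ev1 theta_holds a
        rw [ev1_apply, ev1_apply, d1_apply] at this
        exact this
      rw [h1, map_mul (aeval u) a, map_natCast]
      ring

end H594.GEN
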