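import Pool.Agent.Run7.h594.GEN.AlgU

/-!
# Piece LAT of project GEN: multiplication and derivation in coordinates
-/

set_option autoImplicit false

namespace H594.GEN

open Polynomial H809.OD H594.OD H635.GEN

variable {G : PowerSeries ℚ} {d : ℕ}

lemma gen_mem {i l s : ℕ} (hi : i ≤ s) (hl : l < d) : u ^ i * G ^ l ∈ Lam G d s :=
  Submodule.subset_span ⟨i, hi, l, hl, rfl⟩

lemma Lam_mono {s t : ℕ} (h : s ≤ t) : Lam G d s ≤ Lam G d t := by
  refine Submodule.span_mono ?_
  rintro x ⟨i, hi, l, hl, rfl⟩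
  exact ⟨i, hi.trans h, l, hl, rfl⟩

lemma aeval_u_sum (p : Polynomial ℚ) (t : ℕ) (hp : p.natDegree ≤ t) :
    (aeval u p : PowerSeries ℚ) = ∑ i ∈ Finset.range (t + 1), (p.coeff i) • u ^ i := by
  rw [aeval_eq_sum_range' (Nat.lt_succ_of_le hp)]

lemma Lam_mul_u (p : Polynomial ℚ) (t s : ℕ) (hp : p.natDegree ≤ t) (x : PowerSeries ℚ)
    (hx : x ∈ Lam G d s) : aeval u p * x ∈ Lam G d (s + t) := by
  induction hx using Submodule.span_induction with
  | mem x hx =>
    obtain ⟨i, hi, l, hl, rfl⟩ := hx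
    rw [aeval_u_sum p t hp, Finset.sum_mul]
    refine sum_mem fun j hj => ?_
    rw [Finset.mem_range] at hj
    rw [smul_mul_assoc, ← mul_assoc, ← pow_add]
    exact Submodule.smul_mem _ _ (gen_mem (by omega) hl)
  | zero => rw [mul_zero]; exact zero_mem _
  | add x y _ _ hx hy => rw [mul_add]; exact add_mem hx hy
  | smul a x _ hx => rw [mul_smul_comm]; exact Submodule.smul_mem _ _ hx

lemma coeff_mem (P : Polynomial (Polynomial ℚ)) (s : ℕ) (hP : ∀ i, (P.coeff i).natDegree ≤ s)
    (hd : P.natDegree < d) : H635.GEN.ev2 G P ∈ Lam G d s := by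
  have h1 : H635.GEN.ev2 G P = ∑ i ∈ Finset.range d, aeval u (P.coeff i) * G ^ i := by
    show eval₂ _ G P = _
    rw [eval₂_eq_sum_range' _ hd]
    rfl
  rw [h1]
  refine sum_mem fun i hi => ?_
  rw [Finset.mem_range] at hi
  have h2 : G ^ i ∈ Lam G d 0 := by
    have := gen_mem (G := G) (le_refl 0) hi
    rwa [pow_zero, one_mul] at this
  have := Lam_mul_u (P.coeff i) s 0 (hP i) _ h2
  rwa [zero_add] at this

lemma one_memL (hd : 1 ≤ d) : (1 : PowerSeries ℚ) ∈ Lam G d 0 := by
  have := gen_mem (G := G) (le_refl 0) (show 0 < d from hd)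
  rwa [pow_zero, pow_zero, one_mul] at this

section Red

variable (Φ : Polynomial (Polynomial ℚ)) (h1 : H635.GEN.ev2 G Φ = 0) (hd : Φ.natDegree = d)
  (hd1 : 1 ≤ d) (e : ℕ) (he : ∀ i, (Φ.coeff i).natDegree ≤ e)

include h1 hd he in
/-- multiplication by `G` -/
lemma mul_G (s : ℕ) (x : PowerSeries ℚ) (hx : x ∈ Lam G d s) :
    aeval u Φ.leadingCoeff * (G * x) ∈ Lam G d (s + e) := by
  induction hx using Submodule.span_induction with
  | mem x hx =>
    obtain ⟨i, hi, l, hl, rfl⟩ := hx
    have hle : Φ.leadingCoeff.natDegree ≤ e := he _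
    rcases Nat.lt_or_ge (l + 1) d with hlt | hge
    · have e1 : G * (u ^ i * G ^ l) = u ^ i * G ^ (l + 1) := by rw [pow_succ]; ring
      rw [e1]
      exact Lam_mul_u _ _ _ hle _ (gen_mem hi hlt)
    · have hl1 : l + 1 = d := by omega
      have e1 : G * (u ^ i * G ^ l) = u ^ i * G ^ d := by rw [← hl1, pow_succ]; ring
      have e2 : aeval u Φ.leadingCoeff * G ^ d =
          - ∑ j ∈ Finset.range d, aeval u (Φ.coeff j) * G ^ j := by
        have h2 : H635.GEN.ev2 G Φ = ∑ i ∈ Finset.range (d + 1),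
            aeval u (Φ.coeff i) * G ^ i := by
          show eval₂ _ G Φ = _
          rw [eval₂_eq_sum_range' _ (show Φ.natDegree < d + 1 by omega)]
          rfl
        rw [h1, Finset.sum_range_succ] at h2
        have h3 : Φ.leadingCoeff = Φ.coeff d := by rw [leadingCoeff, hd]
        rw [h3]
        linear_combination -h2
      have e3 : aeval u Φ.leadingCoeff * (u ^ i * G ^ d) =
          - ∑ j ∈ Finset.range d, aeval u (Φ.coeff j) * (u ^ i * G ^ j) := by
        calc aeval u Φ.leadingCoeff * (u ^ i * G ^ d)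
            = u ^ i * (aeval u Φ.leadingCoeff * G ^ d) := by ring
          _ = _ := by
            rw [e2, mul_neg, Finset.mul_sum]
            congr 1
            refine Finset.sum_congr rfl fun j _ => by ring
      rw [e1, e3]
      refine neg_mem (sum_mem fun j hj => ?_)
      rw [Finset.mem_range] at hj
      exact Lam_mul_u _ _ _ (he j) _ (gen_mem hi hj)
  | zero => rw [mul_zero, mul_zero]; exact zero_mem _
  | add x y _ _ hx hy => rw [mul_add, mul_add]; exact add_mem hx hy
  | smul a x _ hx => rw [mul_smul_comm, mul_smul_comm]; exact Submodule.smul_mem _ _ hx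

include h1 hd hd1 he in
lemma mul_G_pow (j s : ℕ) (x : PowerSeries ℚ) (hx : x ∈ Lam G d s) :
    aeval u (Φ.leadingCoeff ^ j) * (G ^ j * x) ∈ Lam G d (s + j * e) := by
  induction j with
  | zero => simpa using hx
  | succ j ih =>
    have := mul_G Φ h1 hd e he _ _ ih
    have e1 : aeval u (Φ.leadingCoeff ^ (j + 1)) * (G ^ (j + 1) * x) =
        aeval u Φ.leadingCoeff * (G * (aeval u (Φ.leadingCoeff ^ j) * (G ^ j * x))) := by
      rw [pow_succ, map_mul, pow_succ]
      ring
    rw [e1]
    have e2 : s + (j + 1) * e = s + j * e + e := by ring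
    rw [e2]
    exact this

include h1 hd hd1 he in
/-- products -/
lemma mul_Lam (s s' : ℕ) (x y : PowerSeries ℚ) (hx : x ∈ Lam G d s) (hy : y ∈ Lam G d s') :
    aeval u (Φ.leadingCoeff ^ d) * (x * y) ∈ Lam G d (s + s' + d * e) := by
  induction hx using Submodule.span_induction with
  | mem x hx =>
    obtain ⟨i, hi, l, hl, rfl⟩ := hx
    have h2 := mul_G_pow Φ h1 hd hd1 e he l _ _ hy
    have h3 : (X ^ i * Φ.leadingCoeff ^ (d - l) : Polynomial ℚ).natDegree ≤ i + (d - l) * e := by
      refine natDegree_mul_le.trans ?_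
      refine Nat.add_le_add (natDegree_X_pow_le i) ?_
      exact natDegree_pow_le.trans (Nat.mul_le_mul_left _ (he _))
    have h4 := Lam_mul_u _ _ _ h3 _ h2
    have e1 : aeval u (Φ.leadingCoeff ^ d) * (u ^ i * G ^ l * y) =
        aeval u (X ^ i * Φ.leadingCoeff ^ (d - l)) *
          (aeval u (Φ.leadingCoeff ^ l) * (G ^ l * y)) := by
      have e2 : Φ.leadingCoeff ^ d = Φ.leadingCoeff ^ (d - l) * Φ.leadingCoeff ^ l := by
        rw [← pow_add]; congr 1; omega
      rw [e2, map_mul, map_mul (aeval u) (X ^ i), map_pow (aeval u) X, aeval_X]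
      ring
    rw [e1]
    refine Lam_mono ?_ h4
    have h5 : l * e + (d - l) * e = d * e := by rw [← Nat.add_mul]; congr 1; omega
    omega
  | zero => rw [zero_mul, mul_zero]; exact zero_mem _
  | add x y _ _ hx hy => rw [add_mul, mul_add]; exact add_mem hx hy
  | smul a x _ hx => rw [smul_mul_assoc, mul_smul_comm]; exact Submodule.smul_mem _ _ hx

include h1 hd hd1 he in
/-- every polynomial in `u`, `G` -/
lemma ev2_Lam (h0 : Φ ≠ 0) (P : Polynomial (Polynomial ℚ)) :
    ∃ (B : Polynomial ℚ) (c : ℕ), B ≠ 0 ∧ aeval u B * H635.GEN.ev2 G P ∈ Lam G d c := by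
  induction P using Polynomial.induction_on' with
  | add p q hp hq =>
    obtain ⟨B, c, hB, h2⟩ := hp
    obtain ⟨B', c', hB', h2'⟩ := hq
    refine ⟨B * B', (c + B'.natDegree) + (c' + B.natDegree), mul_ne_zero hB hB', ?_⟩
    have e1 : aeval u (B * B') * H635.GEN.ev2 G (p + q) =
        aeval u B' * (aeval u B * H635.GEN.ev2 G p) +
        aeval u B * (aeval u B' * H635.GEN.ev2 G q) := by
      rw [map_mul, map_add]; ring
    rw [e1]
    exact add_mem (Lam_mono (by omega) (Lam_mul_u _ _ _ (le_refl _) _ h2))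
      (Lam_mono (by omega) (Lam_mul_u _ _ _ (le_refl _) _ h2'))
  | monomial n a =>
    refine ⟨Φ.leadingCoeff ^ n, 0 + n * e + a.natDegree,
      pow_ne_zero _ (leadingCoeff_ne_zero.mpr h0), ?_⟩
    have h2 := mul_G_pow Φ h1 hd hd1 e he n 0 1 (one_memL hd1)
    have h3 := Lam_mul_u a _ _ (le_refl _) _ h2
    have e1 : aeval u (Φ.leadingCoeff ^ n) * H635.GEN.ev2 G (monomial n a) =
        aeval u a * (aeval u (Φ.leadingCoeff ^ n) * (G ^ n * 1)) := by
      rw [ev2_monomial]; ring
    rw [e1]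
    exact h3

end Red

theorem lat : S_Lat := by
  intro G hG
  obtain ⟨Φ, h0, h1, hd1, hmin⟩ := exists_min hG
  obtain ⟨e, he⟩ : ∃ e : ℕ, ∀ i, (Φ.coeff i).natDegree ≤ e := by
    refine ⟨∑ i ∈ Finset.range (Φ.natDegree + 1), (Φ.coeff i).natDegree, fun i => ?_⟩
    rcases Nat.lt_or_ge i (Φ.natDegree + 1) with hi | hi
    · exact Finset.single_le_sum (f := fun i => (Φ.coeff i).natDegree)
        (fun _ _ => Nat.zero_le _) (Finset.mem_range.mpr hi)
    · rw [coeff_eq_zero_of_natDegree_lt (by omega), natDegree_zero]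
      exact Nat.zero_le _
  obtain ⟨d, hd⟩ : ∃ d : ℕ, Φ.natDegree = d := ⟨_, rfl⟩
  rw [hd] at hd1
  have hmin : ∀ Ψ : Polynomial (Polynomial ℚ), Ψ.natDegree < d → H635.GEN.ev2 G Ψ = 0 → Ψ = 0 :=
    fun Ψ h => hmin Ψ (by rw [hd]; exact h)
  -- the derivative of `G`
  have hder : H635.GEN.ev2 G (derivative Φ) ≠ 0 := by
    intro h2
    have h3 : (derivative Φ).natDegree < d := by rw [← hd]; exact natDegree_derivative_lt (by omega)
    have h4 := hmin _ h3 h2
    have h5 := derivative_eq_zero.mp h4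
    omega
  obtain ⟨A, r, hr, hA⟩ := exists_inv hG _ hder
  obtain ⟨Φ', _, hΦ'⟩ := DD_ev2' G Φ
  rw [h1, DD_zero] at hΦ'
  have hDG : aeval u r * DD G = H635.GEN.ev2 G (-(Φ' * A)) := by
    rw [map_neg, map_mul, ← hA]
    linear_combination (-(H635.GEN.ev2 G A)) * hΦ'
  obtain ⟨B1, c1, hB1, hc1⟩ := ev2_Lam Φ h1 hd hd1 e he h0 (-(Φ' * A))
  rw [← hDG] at hc1
  -- everything
  set L := Φ.leadingCoeff ^ d with hL
  have hLne : L ≠ 0 := pow_ne_zero _ (leadingCoeff_ne_zero.mpr h0)
  refine ⟨d, L * (B1 * r), d * e + (B1 * r).natDegree + c1 + L.natDegree + 3 +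
    (1 + e + (L * (B1 * r)).natDegree), hd1, mul_ne_zero hLne (mul_ne_zero hB1 hr), ?_, ?_, ?_⟩
  · intro s s' x y hx hy
    have h2 := mul_Lam Φ h1 hd hd1 e he s s' x y hx hy
    have h3 := Lam_mul_u (B1 * r) _ _ (le_refl _) _ h2
    have e1 : aeval u (L * (B1 * r)) * (x * y) =
        aeval u (B1 * r) * (aeval u (Φ.leadingCoeff ^ d) * (x * y)) := by
      rw [map_mul (aeval u) L]; ring
    rw [e1]
    refine Lam_mono ?_ h3
    omega
  · intro s x hx
    induction hx using Submodule.span_induction with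
    | mem x hx =>
      obtain ⟨i, hi, l, hl, rfl⟩ := hx
      have e0 : wi ^ 2 * th (u ^ i * G ^ l) = DD (u ^ i * G ^ l) := rfl
      have hDu : DD (u ^ i) = aeval u (pp * derivative (X ^ i)) := by
        have := DD_ev1 theta_holds (X ^ i)
        rw [ev1_apply, ev1_apply, d1_apply, map_pow, aeval_X] at this
        exact this
      have hpow : DD (G ^ l) = l * G ^ (l - 1) * DD G := by
        rcases l with _ | l
        · rw [pow_zero, DD_one]; simp
        · rw [DD, Derivation.leibniz_pow, DD]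
          simp only [smul_eq_mul, nsmul_eq_mul]
          ring
      have e1 : aeval u (L * (B1 * r)) * (wi ^ 2 * th (u ^ i * G ^ l)) =
          aeval u (L * (B1 * r) * (pp * derivative (X ^ i))) * (u ^ 0 * G ^ l) +
          aeval u L * ((u ^ i * ((l : ℚ) • G ^ (l - 1))) * (aeval u B1 * (aeval u r * DD G))) := by
        rw [e0, DD_mul, hDu, hpow]
        have h5 : ((l : ℚ) • G ^ (l - 1) : PowerSeries ℚ) = (l : PowerSeries ℚ) * G ^ (l - 1) := by
          rw [Algebra.smul_def]
          simp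
        rw [h5]
        simp only [map_mul]
        ring
      rw [e1]
      refine add_mem ?_ ?_
      · have hdeg : (L * (B1 * r) * (pp * derivative (X ^ i))).natDegree ≤
            (L * (B1 * r)).natDegree + (3 + i) := by
          refine natDegree_mul_le.trans (Nat.add_le_add (le_refl _) ?_)
          refine natDegree_mul_le.trans (Nat.add_le_add ?_ ?_)
          · rw [pp]
            compute_degree
          · refine (natDegree_derivative_le _).trans ?_
            rw [natDegree_X_pow]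
            omega
        refine Lam_mono ?_ (Lam_mul_u _ _ _ hdeg _ (gen_mem (le_refl 0) hl))
        omega
      · have h6 : (u ^ i * ((l : ℚ) • G ^ (l - 1)) : PowerSeries ℚ) ∈ Lam G d i := by
          rw [mul_smul_comm]
          exact Submodule.smul_mem _ _ (gen_mem (le_refl i) (by omega))
        have h7 := mul_Lam Φ h1 hd hd1 e he i c1 _ _ h6 hc1
        refine Lam_mono ?_ h7
        omega
    | zero => rw [map_zero, mul_zero, mul_zero]; exact zero_mem _
    | add x y _ _ hx hy => rw [map_add, mul_add, mul_add]; exact add_mem hx hy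
    | smul a x _ hx =>
      rw [Derivation.map_smul, mul_smul_comm, mul_smul_comm]
      exact Submodule.smul_mem _ _ hx
  · have h2 := mul_G Φ h1 hd e he 0 1 (one_memL hd1)
    rw [mul_one] at h2
    have h3 := Lam_mul_u (Φ.leadingCoeff ^ (d - 1) * (B1 * r)) _ _ (le_refl _) _ h2
    have e1 : aeval u (L * (B1 * r)) * G =
        aeval u (Φ.leadingCoeff ^ (d - 1) * (B1 * r)) * (aeval u Φ.leadingCoeff * G) := by
      have e2 : L = Φ.leadingCoeff ^ (d - 1) * Φ.leadingCoeff := by
        rw [hL, ← pow_succ]; congr 1; omega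
      rw [e2]
      simp only [map_mul]
      ring
    rw [e1]
    refine Lam_mono ?_ h3
    have h4 : (Φ.leadingCoeff ^ (d - 1) * (B1 * r)).natDegree ≤ (L * (B1 * r)).natDegree := by
      have e3 : L * (B1 * r) = Φ.leadingCoeff * (Φ.leadingCoeff ^ (d - 1) * (B1 * r)) := by
        have e2 : L = Φ.leadingCoeff ^ (d - 1) * Φ.leadingCoeff := by
          rw [hL, ← pow_succ]; congr 1; omega
        rw [e2]; ring
      rw [e3]
      have hne : Φ.leadingCoeff ≠ 0 := leadingCoeff_ne_zero.mpr h0
      rw [natDegree_mul hne (mul_ne_zero (pow_ne_zero _ hne) (mul_ne_zero hB1 hr))]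
      omega
    omega

end H594.GEN
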