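import Pool.Agent.Run7.h635.GEN.Stm
import Pool.Agent.Run7.h594.OD.Near
import Pool.Agent.Run7.h600.OD.Theta

/-!
# Piece TAY of project GEN: Taylor expansion `q → -q`, soft 2-adic estimate
-/

set_option autoImplicit false

namespace H594.GEN

open Polynomial H809.OD H594.OD H635.GEN

lemma ev1_Ser2 (h : Theta) (f : P1) (hf : ∀ i, f.coeff i ∈ Z2) : ev1 f ∈ Ser2 := by
  rw [ev1_apply, aeval_eq_sum_range]
  refine sum_mem fun i _ => ?_
  rw [Algebra.smul_def]
  refine mul_mem ?_ (pow_mem (IntSer_le h.u_int) _)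
  rw [mem_Ser2]
  intro n
  have : algebraMap ℚ (PowerSeries ℚ) (f.coeff i) = PowerSeries.C (f.coeff i) := rfl
  rw [this, PowerSeries.coeff_C]
  split_ifs
  · exact hf i
  · exact zero_mem _

/-- approximation of 2-integral series by 2-integral polynomials in `u` -/
lemma approx2 (h : Theta) (F : PowerSeries ℚ) (hF : F ∈ Ser2) (n : ℕ) :
    ∃ f : P1, (∀ i, f.coeff i ∈ Z2) ∧ PowerSeries.X ^ n ∣ F - ev1 f := by
  induction n with
  | zero => exact ⟨0, fun i => by rw [coeff_zero]; exact zero_mem _, by simp⟩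
  | succ n ih =>
    obtain ⟨f, hf, g, hg⟩ := ih
    obtain ⟨t, ht⟩ : PowerSeries.X ∣ u := by
      rw [PowerSeries.X_dvd_iff, ← PowerSeries.coeff_zero_eq_constantCoeff_apply]
      exact h.u_zero
    have ht1 : PowerSeries.coeff (R := ℚ) 0 t = 1 := by
      have := h.u_one
      rwa [ht, PowerSeries.coeff_succ_X_mul] at this
    have hc : PowerSeries.coeff (R := ℚ) 0 g ∈ Z2 := by
      have h1 : PowerSeries.coeff (R := ℚ) 0 g = PowerSeries.coeff (R := ℚ) n (F - ev1 f) := by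
        have := PowerSeries.coeff_X_pow_mul g n 0
        rw [zero_add] at this
        rw [hg, this]
      rw [h1]
      exact (mem_Ser2 _).mp (sub_mem hF (ev1_Ser2 h f hf)) n
    refine ⟨f + C (PowerSeries.coeff (R := ℚ) 0 g) * X ^ n, ?_, ?_⟩
    · intro i
      rw [coeff_add, coeff_C_mul, coeff_X_pow]
      refine add_mem (hf i) (mul_mem hc ?_)
      split_ifs
      · exact one_mem _
      · exact zero_mem _
    have h1 : F - ev1 (f + C (PowerSeries.coeff (R := ℚ) 0 g) * X ^ n) =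
        PowerSeries.X ^ n * (g - PowerSeries.C (PowerSeries.coeff (R := ℚ) 0 g) * t ^ n) := by
      rw [map_add, map_mul, map_pow]
      have h2 : ev1 (X : P1) = u := by rw [ev1_apply, aeval_X]
      have h3 : ev1 (C (PowerSeries.coeff (R := ℚ) 0 g)) = PowerSeries.C (PowerSeries.coeff (R := ℚ) 0 g) := by
        rw [ev1_apply, aeval_C]; rfl
      rw [h2, h3, ← sub_sub, hg, ht, mul_pow]
      ring
    rw [h1, pow_succ]
    refine mul_dvd_mul_left _ ?_
    rw [PowerSeries.coeff_zero_eq_constantCoeff_apply] at ht1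
    rw [PowerSeries.X_dvd_iff, map_sub, map_mul, map_pow, ht1]
    simp

lemma iter_eq (m : ℕ) (f : P1) :
    (derivative^[m] f : P1) = C (Nat.factorial m : ℚ) * hasseDeriv m f := by
  have h2 := congrFun (Polynomial.factorial_smul_hasseDeriv (R := ℚ) m) f
  have h3 : (Nat.factorial m) • hasseDeriv m f = derivative^[m] f := h2
  rw [← h3, nsmul_eq_mul, map_natCast]

/-- Hasse derivatives preserve 2-integral series -/
lemma hasse_mem (h : Theta) (F : PowerSeries ℚ) (hF : F ∈ Ser2) (m : ℕ) :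
    PowerSeries.C ((Nat.factorial m : ℚ)⁻¹) * TJ m F ∈ Ser2 := by
  rw [mem_Ser2]
  intro k
  obtain ⟨f, hf, hd⟩ := approx2 h F hF (k + 1)
  have e : TJ m F = TJ m (F - ev1 f) + TJ m (ev1 f) := by rw [← TJ_add, sub_add_cancel]
  have h0 : PowerSeries.coeff (R := ℚ) k (TJ m (F - ev1 f)) = 0 :=
    PowerSeries.X_pow_dvd_iff.mp (TJ_dvd m (k + 1) _ hd) k (Nat.lt_succ_self k)
  rw [PowerSeries.coeff_C_mul, e, map_add, h0, zero_add, TJ_poly h, iter_eq,
    ← PowerSeries.coeff_C_mul]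
  have h1 : PowerSeries.C ((Nat.factorial m : ℚ)⁻¹) *
      ev1 (pp ^ m * (C (Nat.factorial m : ℚ) * hasseDeriv m f)) =
      ev1 (pp ^ m * hasseDeriv m f) := by
    rw [map_mul, map_mul, map_mul, map_pow]
    have h3 : ev1 (C (Nat.factorial m : ℚ)) = PowerSeries.C (Nat.factorial m : ℚ) := by
      rw [ev1_apply, aeval_C]; rfl
    have h5 : PowerSeries.C ((Nat.factorial m : ℚ)⁻¹) * PowerSeries.C (Nat.factorial m : ℚ) =
        (1 : PowerSeries ℚ) := by
      rw [← map_mul, inv_mul_cancel₀, map_one]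
      exact_mod_cast Nat.factorial_ne_zero m
    rw [h3]
    linear_combination (ev1 pp ^ m * ev1 (hasseDeriv m f)) * h5
  rw [h1]
  refine (mem_Ser2 _).mp ?_ k
  rw [map_mul, map_pow]
  have hpp : ev1 pp ∈ Ser2 := by
    have : ev1 pp = u * (1 - 4 * u) * (1 - 8 * u) := by
      rw [ev1_apply, pp]
      simp only [map_mul, aeval_X, map_sub, map_one, map_ofNat]
    rw [this]
    have hu := IntSer_le h.u_int
    have h4 : (4 : PowerSeries ℚ) ∈ Ser2 := ofNat_mem _ 4
    have h8 : (8 : PowerSeries ℚ) ∈ Ser2 := ofNat_mem _ 8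
    exact mul_mem (mul_mem hu (sub_mem (one_mem _) (mul_mem h4 hu)))
      (sub_mem (one_mem _) (mul_mem h8 hu))
  refine mul_mem (pow_mem hpp _) (ev1_Ser2 h _ fun i => ?_)
  rw [hasseDeriv_coeff]
  exact mul_mem (natCast_mem _ _) (hf _)

lemma yy_eq (F : PowerSeries ℚ) (j : ℕ) : yy F j =
    2 ^ j * ((-1) ^ j * si ^ (2 * (j + 1)) *
      (PowerSeries.C ((Nat.factorial (j + 1) : ℚ)⁻¹) * TJ (j + 1) F)) := by
  rw [yy]
  have h1 : PowerSeries.C (-1 / 2 * ((-2 : ℚ) ^ (j + 1) / (Nat.factorial (j + 1) : ℚ))) =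
      2 ^ j * (-1) ^ j * PowerSeries.C ((Nat.factorial (j + 1) : ℚ)⁻¹) := by
    have h2 : (2 : PowerSeries ℚ) ^ j * (-1) ^ j = PowerSeries.C ((2 : ℚ) ^ j * (-1) ^ j) := by
      rw [map_mul, map_pow, map_pow, map_neg, map_one]; rfl
    rw [h2, ← map_mul]
    congr 1
    have h3 : (-2 : ℚ) ^ (j + 1) = -2 * (2 ^ j * (-1) ^ j) := by
      rw [pow_succ, ← mul_pow]; ring
    rw [h3]
    ring
  rw [h1]
  ring

lemma yy_mem (h : Theta) (F : PowerSeries ℚ) (hF : F ∈ Ser2) (j : ℕ) :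
    (-1) ^ j * si ^ (2 * (j + 1)) *
      (PowerSeries.C ((Nat.factorial (j + 1) : ℚ)⁻¹) * TJ (j + 1) F) ∈ Ser2 :=
  mul_mem (mul_mem (pow_mem (neg_mem (one_mem _)) _) (pow_mem (IntSer_le (si_int h)) _))
    (hasse_mem h F hF (j + 1))

theorem tay' (h : Theta) : S_Tay := by
  intro F hF hodd
  refine ⟨fun j => ⟨_, yy_mem h F hF j, yy_eq F j⟩, fun M => ?_⟩
  -- the terms
  set g : ℕ → PowerSeries ℚ := fun j => (-1) ^ j * si ^ (2 * (j + 1)) *
      (PowerSeries.C ((Nat.factorial (j + 1) : ℚ)⁻¹) * TJ (j + 1) F) with hg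
  have hgm : ∀ j, g j ∈ Ser2 := fun j => yy_mem h F hF j
  have hyy : ∀ j, yy F j = 2 ^ j * g j := fun j => yy_eq F j
  have h2C : ∀ k : ℕ, (2 : PowerSeries ℚ) ^ k = PowerSeries.C (2 ^ k) := fun k => by
    rw [map_pow]; rfl
  have hcoef : ∀ n m, n ≤ m → PowerSeries.coeff (R := ℚ) n F =
      ∑ j ∈ Finset.range m, PowerSeries.coeff (R := ℚ) n (yy F j) := by
    intro n m hm
    have h1 := taylor h F n (m + 1) (by omega)
    rw [hodd, Finset.sum_range_succ'] at h1
    have h0 : PowerSeries.coeff (R := ℚ) n (PowerSeries.C ((-2) ^ 0 / (Nat.factorial 0 : ℚ)) *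
        si ^ (2 * 0) * TJ 0 F) = PowerSeries.coeff (R := ℚ) n F := by
      simp [TJ]
    rw [h0, map_neg] at h1
    have h3 : ∀ j, PowerSeries.coeff (R := ℚ) n (yy F j) = -1 / 2 *
        PowerSeries.coeff (R := ℚ) n (PowerSeries.C ((-2) ^ (j + 1) / (Nat.factorial (j + 1) : ℚ)) *
          si ^ (2 * (j + 1)) * TJ (j + 1) F) := by
      intro j
      rw [yy, map_mul PowerSeries.C, mul_assoc, mul_assoc, PowerSeries.coeff_C_mul, ← mul_assoc]
    rw [Finset.sum_congr rfl fun j _ => h3 j, ← Finset.mul_sum]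
    linarith
  have hdiff : ∀ n, ∃ x ∈ Z2, PowerSeries.coeff (R := ℚ) n
      (F - ∑ j ∈ Finset.range M, yy F j) = 2 ^ M * x := by
    intro n
    refine ⟨∑ j ∈ Finset.range n, 2 ^ j * PowerSeries.coeff (R := ℚ) n (g (M + j)), ?_, ?_⟩
    · refine sum_mem fun j _ => mul_mem (pow_mem (ofNat_mem _ 2) _) ((mem_Ser2 _).mp (hgm _) n)
    · rw [map_sub, map_sum, hcoef n (M + n) (by omega), Finset.sum_range_add, add_sub_cancel_left,
        Finset.mul_sum]
      refine Finset.sum_congr rfl fun j _ => ?_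
      rw [hyy, h2C, PowerSeries.coeff_C_mul, pow_add]
      ring
  choose x hx hx' using hdiff
  refine ⟨PowerSeries.mk x, ?_, ?_⟩
  · rw [mem_Ser2]; intro n; rw [PowerSeries.coeff_mk]; exact hx n
  · ext n
    rw [hx' n, h2C, PowerSeries.coeff_C_mul, PowerSeries.coeff_mk]

theorem tay : S_Tay := tay' theta_holds

end H594.GEN
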